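import Mathlib

open MeasureTheory ProbabilityTheory Filter Topology
open scoped Pointwise

namespace Pool.Agent.Results.MP_aabed8_pr.StrongLawFails

section Defs

/-- The unit sphere of the dual space. -/
abbrev DualSphere (X : Type*) [NormedAddCommGroup X] [NormedSpace ℝ X] : Type _ :=
  Metric.sphere (0 : StrongDual ℝ X) 1

/-- `Z(X)`: the bounded continuous real functions on the dual unit sphere, with the sup norm. -/
abbrev Z (X : Type*) [NormedAddCommGroup X] [NormedSpace ℝ X] : Type _ :=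
  BoundedContinuousFunction (DualSphere X) ℝ

/-- `Z(X)` carries its Borel sigma-algebra. -/
noncomputable instance instMeasurableSpaceZ (X : Type*) [NormedAddCommGroup X] [NormedSpace ℝ X] :
    MeasurableSpace (Z X) := borel _

instance instBorelSpaceZ (X : Type*) [NormedAddCommGroup X] [NormedSpace ℝ X] :
    BorelSpace (Z X) := ⟨rfl⟩

/-- `bc(X)`: the nonempty bounded convex subsets of `X`. -/
structure BC (X : Type*) [NormedAddCommGroup X] [NormedSpace ℝ X] where
  carrier : Set X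
  nonempty : carrier.Nonempty
  bounded : Bornology.IsBounded carrier
  convex : Convex ℝ carrier

/-- The space is B-convex. -/
def BConvex (X : Type*) [NormedAddCommGroup X] [NormedSpace ℝ X] : Prop :=
  ∃ k : ℕ, 2 ≤ k ∧ ∃ ε : ℝ, 0 < ε ∧ ∀ x : Fin k → X, (∀ i, ‖x i‖ ≤ 1) →
    ∃ s : Fin k → ℝ, (∀ i, s i = 1 ∨ s i = -1) ∧ ‖∑ i, s i • x i‖ ≤ k * (1 - ε)

variable {X : Type*} [NormedAddCommGroup X] [NormedSpace ℝ X]

/-- `sup_{a ∈ A} f(a)`. -/
noncomputable def supFun (A : Set X) (f : StrongDual ℝ X) : ℝ := sSup ((fun a => f a) '' A)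

lemma exists_bound (A : BC X) : ∃ r : ℝ, 0 ≤ r ∧ ∀ a ∈ A.carrier, ‖a‖ ≤ r := by
  obtain ⟨r, hr⟩ := A.bounded.exists_norm_le
  exact ⟨max r 0, le_max_right _ _, fun a ha => (hr a ha).trans (le_max_left _ _)⟩

lemma bdd_image {A : Set X} {r : ℝ} (hr : ∀ a ∈ A, ‖a‖ ≤ r) (f : StrongDual ℝ X) :
    BddAbove ((fun a => f a) '' A) := by
  refine ⟨‖f‖ * r, ?_⟩
  rintro _ ⟨a, ha, rfl⟩
  exact (le_abs_self _).trans ((f.le_opNorm a).trans
    (mul_le_mul_of_nonneg_left (hr a ha) (norm_nonneg _)))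

lemma supFun_le_add {A : Set X} (hA : A.Nonempty) {r : ℝ} (hr : ∀ a ∈ A, ‖a‖ ≤ r)
    (f g : StrongDual ℝ X) : supFun A f ≤ supFun A g + r * ‖f - g‖ := by
  refine csSup_le (hA.image _) ?_
  rintro _ ⟨a, ha, rfl⟩
  have h1 : g a ≤ supFun A g := le_csSup (bdd_image hr g) ⟨a, ha, rfl⟩
  have h2 : (f - g) a ≤ ‖f - g‖ * r := (le_abs_self _).trans (((f - g).le_opNorm a).trans
    (mul_le_mul_of_nonneg_left (hr a ha) (norm_nonneg _)))
  have h3 : (f - g) a = f a - g a := rfl
  simp only []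
  linarith

lemma supFun_zero {A : Set X} (hA : A.Nonempty) : supFun A 0 = 0 := by
  unfold supFun
  have : (fun a => (0 : StrongDual ℝ X) a) '' A = {0} := by
    ext x
    simp only [Set.mem_image, Set.mem_singleton_iff]
    constructor
    · rintro ⟨a, _, rfl⟩; rfl
    · rintro rfl
      obtain ⟨a, ha⟩ := hA
      exact ⟨a, ha, rfl⟩
  rw [this, csSup_singleton]

/-- The Radstrom embedding: `R(A)(f) = sup_{a ∈ A} f(a)` for `f` in the dual unit sphere. -/
noncomputable def R (A : BC X) : Z X where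
  toFun f := supFun A.carrier (f : StrongDual ℝ X)
  continuous_toFun := by
    obtain ⟨r, hr0, hr⟩ := exists_bound A
    have h : LipschitzWith (Real.toNNReal r) (supFun A.carrier) := by
      refine LipschitzWith.of_le_add_mul _ fun f g => ?_
      rw [Real.coe_toNNReal r hr0, dist_eq_norm]
      exact supFun_le_add A.nonempty hr f g
    exact h.continuous.comp continuous_subtype_val
  map_bounded' := by
    obtain ⟨r, hr0, hr⟩ := exists_bound A
    refine ⟨r * 2, fun f g => ?_⟩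
    have hf : ‖(f : StrongDual ℝ X)‖ = 1 := mem_sphere_zero_iff_norm.1 f.2
    have hg : ‖(g : StrongDual ℝ X)‖ = 1 := mem_sphere_zero_iff_norm.1 g.2
    have h0 : ‖(f : StrongDual ℝ X) - g‖ ≤ 2 := (norm_sub_le _ _).trans (by rw [hf, hg]; norm_num)
    have h0' : ‖(g : StrongDual ℝ X) - f‖ ≤ 2 := (norm_sub_le _ _).trans (by rw [hf, hg]; norm_num)
    have h1 := supFun_le_add A.nonempty hr (f : StrongDual ℝ X) g
    have h2 := supFun_le_add A.nonempty hr (g : StrongDual ℝ X) f
    rw [Real.dist_eq, abs_le]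
    constructor <;> nlinarith

variable {Ω : Type*} [MeasurableSpace Ω]

/-- `Ψ` is a random set with expectation `U`: `R ∘ Ψ` is Borel measurable, Bochner integrable, and
its Bochner integral is `R(U)`. -/
def HasExpectation (μ : Measure Ω) (Ψ : Ω → BC X) (U : BC X) : Prop :=
  Measurable (fun ω => R (Ψ ω)) ∧ Integrable (fun ω => R (Ψ ω)) μ ∧ ∫ ω, R (Ψ ω) ∂μ = R U

/-- The average `(1/n) (Ψ_0(ω) + ... + Ψ_{n-1}(ω))` (Minkowski sum). -/
noncomputable def average (Ψ : ℕ → Ω → BC X) (n : ℕ) (ω : Ω) : Set X :=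
  (n : ℝ)⁻¹ • ∑ i ∈ Finset.range n, (Ψ i ω).carrier

end Defs

/-- The strong law fails in `X`, for every sample point and with distance at least `1/3`. -/
def Fails (X : Type*) [NormedAddCommGroup X] [NormedSpace ℝ X] : Prop :=
  ∃ (Ω : Type) (_ : MeasurableSpace Ω) (μ : Measure Ω) (_ : IsProbabilityMeasure μ)
    (Ψ : ℕ → Ω → BC X) (U : BC X),
    (∃ r : ℝ, ∀ n ω, (Ψ n ω).carrier ⊆ Metric.closedBall 0 r) ∧
    iIndepFun (fun n ω => R (Ψ n ω)) μ ∧
    (∀ n, HasExpectation μ (Ψ n) U) ∧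
    (∀ ω, ∀ n, 1 ≤ n → 1 / 3 ≤ Metric.hausdorffDist (average Ψ n ω) U.carrier) ∧
    ∀ ω, ¬ Tendsto (fun n => Metric.hausdorffDist (average Ψ n ω) U.carrier) atTop (𝓝 0)

section Hilbert

variable {X : Type*} [NormedAddCommGroup X] [InnerProductSpace ℝ X]

lemma key_ineq (T : X ≃ₗᵢ[ℝ] X) (hT : ∀ x y, inner ℝ (T x) y = inner ℝ x (T y)) {σ : ℝ}
    (hσ : |σ| ≤ 1) {u v : X} (hu : ‖u‖ = 1) (hv : ‖v‖ = 1) :
    inner ℝ v (u + (2 * σ / 3) • T u - (σ / 3 * inner ℝ u (T u)) • u) ≤
      1 + σ / 3 * inner ℝ v (T v) := by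
  set g : ℝ := inner ℝ v u with hg
  have hD : ‖v - u‖ ^ 2 = 2 * (1 - g) := by
    rw [norm_sub_sq_real, hu, hv]; ring
  have hD0 : 0 ≤ 1 - g := by nlinarith [sq_nonneg ‖v - u‖]
  have hQ : inner ℝ (v - u) (T (v - u)) =
      inner ℝ v (T v) - 2 * inner ℝ v (T u) + inner ℝ u (T u) := by
    rw [map_sub, inner_sub_left, inner_sub_right, inner_sub_right]
    have : inner ℝ u (T v) = inner ℝ v (T u) := by rw [← hT, real_inner_comm]
    rw [this]; ring
  have hQ1 : |inner ℝ (v - u) (T (v - u))| ≤ 2 * (1 - g) := by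
    refine (abs_real_inner_le_norm _ _).trans (le_of_eq ?_)
    rw [T.norm_map, ← hD]; ring
  have hu1 : |inner ℝ u (T u)| ≤ 1 := by
    refine (abs_real_inner_le_norm _ _).trans (le_of_eq ?_)
    rw [T.norm_map, hu]; ring
  rw [inner_sub_right, inner_add_right, inner_smul_right, inner_smul_right, ← hg]
  have h1 : |σ * inner ℝ (v - u) (T (v - u))| ≤ 2 * (1 - g) := by
    rw [abs_mul]
    calc |σ| * |inner ℝ (v - u) (T (v - u))| ≤ 1 * (2 * (1 - g)) :=
          mul_le_mul hσ hQ1 (abs_nonneg _) zero_le_one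
      _ = _ := one_mul _
  have h2 : |σ * inner ℝ u (T u)| ≤ 1 := by
    rw [abs_mul]
    calc |σ| * |inner ℝ u (T u)| ≤ 1 * 1 := mul_le_mul hσ hu1 (abs_nonneg _) zero_le_one
      _ = _ := one_mul _
  have h3 := (abs_le.1 h1).1
  have h4 := (abs_le.1 h2).2
  have h5 : σ * inner ℝ u (T u) * (1 - g) ≤ 1 * (1 - g) := mul_le_mul_of_nonneg_right h4 hD0
  rw [hQ] at h3
  nlinarith

/-- The convex set with support function `v ↦ 1 + (σ/3)⟨v, T v⟩` on the unit sphere. -/
def KS (T : X ≃ₗᵢ[ℝ] X) (σ : ℝ) : Set X :=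
  {a | ∀ v : X, ‖v‖ = 1 → inner ℝ v a ≤ 1 + σ / 3 * inner ℝ v (T v)}

lemma mem_KS (T : X ≃ₗᵢ[ℝ] X) (hT : ∀ x y, inner ℝ (T x) y = inner ℝ x (T y)) {σ : ℝ}
    (hσ : |σ| ≤ 1) {u : X} (hu : ‖u‖ = 1) :
    u + (2 * σ / 3) • T u - (σ / 3 * inner ℝ u (T u)) • u ∈ KS T σ :=
  fun _ hv => key_ineq T hT hσ hu hv

lemma zero_mem_KS (T : X ≃ₗᵢ[ℝ] X) {σ : ℝ} (hσ : |σ| ≤ 1) : (0 : X) ∈ KS T σ := by
  intro v hv
  rw [inner_zero_right]
  have h1 : |inner ℝ v (T v)| ≤ 1 := by
    refine (abs_real_inner_le_norm _ _).trans (le_of_eq ?_)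
    rw [T.norm_map, hv]; ring
  have h2 : |σ * inner ℝ v (T v)| ≤ 1 := by
    rw [abs_mul]
    calc |σ| * |inner ℝ v (T v)| ≤ 1 * 1 := mul_le_mul hσ h1 (abs_nonneg _) zero_le_one
      _ = _ := one_mul _
  have := (abs_le.1 h2).1
  linarith

lemma KS_norm_le (T : X ≃ₗᵢ[ℝ] X) {σ : ℝ} (hσ : |σ| ≤ 1) {a : X} (ha : a ∈ KS T σ) : ‖a‖ ≤ 2 := by
  by_cases h0 : a = 0
  · rw [h0, norm_zero]; norm_num
  have hn : 0 < ‖a‖ := norm_pos_iff.2 h0
  set v : X := (‖a‖)⁻¹ • a with hv
  have hv1 : ‖v‖ = 1 := by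
    rw [hv, norm_smul, norm_inv, norm_norm, inv_mul_cancel₀ hn.ne']
  have h := ha v hv1
  have h1 : |inner ℝ v (T v)| ≤ 1 := by
    refine (abs_real_inner_le_norm _ _).trans (le_of_eq ?_)
    rw [T.norm_map, hv1]; ring
  have h2 : |σ * inner ℝ v (T v)| ≤ 1 := by
    rw [abs_mul]
    calc |σ| * |inner ℝ v (T v)| ≤ 1 * 1 := mul_le_mul hσ h1 (abs_nonneg _) zero_le_one
      _ = _ := one_mul _
  have h3 := (abs_le.1 h2).2
  have h4 : inner ℝ v a = ‖a‖ := by
    rw [hv, real_inner_smul_left, real_inner_self_eq_norm_sq]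
    field_simp
  rw [h4] at h
  linarith

lemma convex_KS (T : X ≃ₗᵢ[ℝ] X) (σ : ℝ) : Convex ℝ (KS T σ) := by
  intro a ha b hb s t hs ht hst v hv
  rw [inner_add_right, inner_smul_right, inner_smul_right]
  have h1 := mul_le_mul_of_nonneg_left (ha v hv) hs
  have h2 := mul_le_mul_of_nonneg_left (hb v hv) ht
  have h3 : s * (1 + σ / 3 * inner ℝ v (T v)) + t * (1 + σ / 3 * inner ℝ v (T v)) =
    1 + σ / 3 * inner ℝ v (T v) := by rw [← add_mul, hst, one_mul]
  linarith

/-- The element of `bc(X)`. -/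
def KB (T : X ≃ₗᵢ[ℝ] X) (σ : ℝ) (hσ : |σ| ≤ 1) : BC X where
  carrier := KS T σ
  nonempty := ⟨0, zero_mem_KS T hσ⟩
  bounded := by
    refine Metric.isBounded_closedBall.subset (s := KS T σ) (t := Metric.closedBall (0 : X) 2) ?_
    intro a ha
    rw [mem_closedBall_zero_iff]
    exact KS_norm_le T hσ ha
  convex := convex_KS T σ

/-- The unit ball as an element of `bc(X)`. -/
def UB (X : Type*) [NormedAddCommGroup X] [InnerProductSpace ℝ X] : BC X where
  carrier := Metric.closedBall 0 1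
  nonempty := ⟨0, by simp⟩
  bounded := Metric.isBounded_closedBall
  convex := convex_closedBall 0 1

variable [CompleteSpace X]

lemma riesz (f : DualSphere X) : ∃ u : X, ‖u‖ = 1 ∧ ∀ a, (f : StrongDual ℝ X) a = inner ℝ u a := by
  refine ⟨(InnerProductSpace.toDual ℝ X).symm (f : StrongDual ℝ X), ?_, fun a => ?_⟩
  · rw [LinearIsometryEquiv.norm_map]
    exact mem_sphere_zero_iff_norm.1 f.2
  · rw [InnerProductSpace.toDual_symm_apply]

lemma R_UB (f : DualSphere X) : R (UB X) f = 1 := by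
  obtain ⟨u, hu, hf⟩ := riesz f
  change supFun (Metric.closedBall 0 1) (f : StrongDual ℝ X) = 1
  refine le_antisymm (csSup_le ⟨_, 0, by simp, rfl⟩ ?_) (le_csSup ⟨1, ?_⟩ ⟨u, ?_, ?_⟩)
  · rintro _ ⟨a, ha, rfl⟩
    rw [mem_closedBall_zero_iff] at ha
    simp only []
    rw [hf]
    refine (le_abs_self _).trans ((abs_real_inner_le_norm _ _).trans ?_)
    rw [hu, one_mul]; exact ha
  · rintro _ ⟨a, ha, rfl⟩
    rw [mem_closedBall_zero_iff] at ha
    simp only []
    rw [hf]
    refine (le_abs_self _).trans ((abs_real_inner_le_norm _ _).trans ?_)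
    rw [hu, one_mul]; exact ha
  · rw [mem_closedBall_zero_iff, hu]
  · simp only []
    rw [hf, real_inner_self_eq_norm_sq, hu, one_pow]

lemma R_KB (T : X ≃ₗᵢ[ℝ] X) (hT : ∀ x y, inner ℝ (T x) y = inner ℝ x (T y)) {σ : ℝ}
    (hσ : |σ| ≤ 1) (f : DualSphere X) (u : X) (hu : ‖u‖ = 1)
    (hf : ∀ a, (f : StrongDual ℝ X) a = inner ℝ u a) :
    R (KB T σ hσ) f = 1 + σ / 3 * inner ℝ u (T u) := by
  change supFun (KS T σ) (f : StrongDual ℝ X) = _
  refine le_antisymm (csSup_le ⟨_, 0, zero_mem_KS T hσ, rfl⟩ ?_)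
    (le_csSup ⟨1 + σ / 3 * inner ℝ u (T u), ?_⟩ ⟨_, mem_KS T hT hσ hu, ?_⟩)
  · rintro _ ⟨a, ha, rfl⟩
    simp only []
    rw [hf]
    exact ha u hu
  · rintro _ ⟨a, ha, rfl⟩
    simp only []
    rw [hf]
    exact ha u hu
  · simp only []
    rw [hf, inner_sub_right, inner_add_right, inner_smul_right, inner_smul_right,
      real_inner_self_eq_norm_sq, hu]
    ring

lemma R_avg (T : X ≃ₗᵢ[ℝ] X) (hT : ∀ x y, inner ℝ (T x) y = inner ℝ x (T y)) {σ τ : ℝ}
    (hσ : |σ| ≤ 1) (hτ : |τ| ≤ 1) (h : σ + τ = 0) :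
    (2 : ℝ)⁻¹ • R (KB T σ hσ) + (2 : ℝ)⁻¹ • R (KB T τ hτ) = R (UB X) := by
  ext f
  obtain ⟨u, hu, hf⟩ := riesz f
  rw [BoundedContinuousFunction.add_apply, BoundedContinuousFunction.smul_apply,
    BoundedContinuousFunction.smul_apply, R_UB, R_KB T hT hσ f u hu hf, R_KB T hT hτ f u hu hf]
  have : τ = -σ := by linarith
  rw [this, smul_eq_mul, smul_eq_mul]
  ring

omit [CompleteSpace X] in
lemma bconvex_hilbert : BConvex X := by
  refine ⟨2, le_rfl, 1 / 4, by norm_num, fun x hx => ?_⟩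
  have hp : ‖x 0 + x 1‖ ^ 2 + ‖x 0 - x 1‖ ^ 2 = 2 * (‖x 0‖ ^ 2 + ‖x 1‖ ^ 2) := by
    have := parallelogram_law_with_norm ℝ (x 0) (x 1)
    nlinarith
  have h0 : ‖x 0‖ ^ 2 ≤ 1 := by
    have := hx 0
    nlinarith [norm_nonneg (x 0)]
  have h1 : ‖x 1‖ ^ 2 ≤ 1 := by
    have := hx 1
    nlinarith [norm_nonneg (x 1)]
  by_cases hc : ‖x 0 + x 1‖ ≤ 3 / 2
  · refine ⟨fun _ => 1, fun _ => Or.inl rfl, ?_⟩
    simp only [Fin.sum_univ_two, one_smul]
    push_cast
    linarith
  · refine ⟨![1, -1], ?_, ?_⟩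
    · intro i
      fin_cases i <;> simp
    · simp only [Fin.sum_univ_two, Matrix.cons_val_zero, Matrix.cons_val_one, one_smul, neg_smul]
      rw [← sub_eq_add_neg]
      push_cast
      by_contra hcon
      push Not at hc hcon
      have e1 : (3 / 2 : ℝ) ^ 2 < ‖x 0 + x 1‖ ^ 2 := by
        nlinarith [norm_nonneg (x 0 + x 1)]
      have e2 : (3 / 2 : ℝ) ^ 2 < ‖x 0 - x 1‖ ^ 2 := by
        nlinarith [norm_nonneg (x 0 - x 1)]
      nlinarith

/-- The fair coin. -/
noncomputable def coin : Measure Bool :=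
  (2 : ENNReal)⁻¹ • Measure.dirac true + (2 : ENNReal)⁻¹ • Measure.dirac false

instance : IsProbabilityMeasure coin := by
  refine ⟨?_⟩
  simp [coin, ENNReal.inv_two_add_inv_two]

/-- The sign of an outcome. -/
def sg (b : Bool) : ℝ := if b then 1 else -1

lemma abs_sg (b : Bool) : |sg b| ≤ 1 := by cases b <;> simp [sg]

/-- Main construction, from an orthonormal family indexed by the finite subsets of `ℕ`. -/
theorem fails_of_orthonormal (b : Finset ℕ → X) (hb : Orthonormal ℝ b) : Fails X := by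
  set V : ℕ → Submodule ℝ X := fun i => (Submodule.span ℝ (b '' {t | i ∉ t}))ᗮ with hV
  set T : ℕ → X ≃ₗᵢ[ℝ] X := fun i => (V i).reflection with hTd
  have hT : ∀ i x y, inner ℝ (T i x) y = inner ℝ x (T i y) := by
    intro i x y
    have h1 : T i (T i y) = y := Submodule.reflection_reflection (V i) y
    calc inner ℝ (T i x) y = inner ℝ (T i x) (T i (T i y)) := by rw [h1]
      _ = inner ℝ x (T i y) := (T i).inner_map_map _ _
  have hTb : ∀ i s, T i (b s) = (if i ∈ s then (1 : ℝ) else -1) • b s := by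
    intro i s
    by_cases his : i ∈ s
    · simp only [his, if_true, one_smul]
      refine Submodule.reflection_mem_subspace_eq_self ?_
      simp only [hV]
      rw [Submodule.mem_orthogonal]
      intro u hu
      induction hu using Submodule.span_induction with
      | mem x hx =>
        obtain ⟨t, ht, rfl⟩ := hx
        refine hb.2 ?_
        rintro rfl
        exact ht his
      | zero => simp
      | add x y _ _ hx hy => rw [inner_add_left, hx, hy, add_zero]
      | smul a x _ hx => rw [real_inner_smul_left, hx, mul_zero]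
    · simp only [his, if_false, neg_smul, one_smul]
      refine Submodule.reflection_mem_subspace_orthogonalComplement_eq_neg ?_
      refine Submodule.le_orthogonal_orthogonal _ ?_
      exact Submodule.subset_span ⟨s, his, rfl⟩
  set Ψ : ℕ → (ℕ → Bool) → BC X := fun i ω => KB (T i) (sg (ω i)) (abs_sg _) with hΨ
  have hexp : ∀ i, HasExpectation (Measure.infinitePi fun _ : ℕ => coin) (Ψ i) (UB X) := by
    intro i
    set φ : Bool → Z X := fun c => R (KB (T i) (sg c) (abs_sg c)) with hφ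
    have hmp := measurePreserving_eval_infinitePi (fun _ : ℕ => coin) i
    refine ⟨?_, ?_, ?_⟩
    · exact (measurable_from_top (f := φ)).comp (measurable_pi_apply i)
    · exact (hmp.integrable_comp_of_integrable (g := φ) (Integrable.of_finite))
    · have h1 : ∫ ω, φ (ω i) ∂(Measure.infinitePi fun _ : ℕ => coin) = ∫ c, φ c ∂coin := by
        have := integral_map (μ := Measure.infinitePi fun _ : ℕ => coin)
          (φ := fun ω : ℕ → Bool => ω i) (f := φ) (measurable_pi_apply i).aemeasurable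
          AEStronglyMeasurable.of_discrete
        rw [← this]
        congr 1
        exact hmp.map_eq
      have h2 : ∫ c, φ c ∂coin = R (UB X) := by
        unfold coin
        rw [integral_add_measure, integral_smul_measure, integral_smul_measure, integral_dirac,
          integral_dirac]
        · rw [ENNReal.toReal_inv, ENNReal.toReal_ofNat]
          exact R_avg (T i) (hT i) (abs_sg true) (abs_sg false) (by simp [sg])
        · exact Integrable.smul_measure Integrable.of_finite (by simp)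
        · exact Integrable.smul_measure Integrable.of_finite (by simp)
      exact h1.trans h2
  have hdist : ∀ ω : ℕ → Bool, ∀ n, 1 ≤ n →
      1 / 3 ≤ Metric.hausdorffDist (average Ψ n ω) (UB X).carrier := by
    intro ω n hn
    set s : Finset ℕ := (Finset.range n).filter fun i => ω i = true with hs
    have hbs : ‖b s‖ = 1 := hb.1 s
    have hmem : ∀ i ∈ Finset.range n, (4 / 3 : ℝ) • b s ∈ (Ψ i ω).carrier := by
      intro i hi
      have h1 := mem_KS (T i) (hT i) (abs_sg (ω i)) hbs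
      have h2 : T i (b s) = sg (ω i) • b s := by
        rw [hTb]
        congr 1
        have : i ∈ s ↔ ω i = true := by
          rw [hs, Finset.mem_filter]
          exact ⟨fun h => h.2, fun h => ⟨hi, h⟩⟩
        cases hω : ω i
        · have : i ∉ s := by rw [this, hω]; simp
          simp [this, sg]
        · have : i ∈ s := by rw [this, hω]
          simp [this, sg]
      have h3 : sg (ω i) * sg (ω i) = 1 := by cases ω i <;> simp [sg]
      have h4 : b s + (2 * sg (ω i) / 3) • T i (b s) -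
          (sg (ω i) / 3 * inner ℝ (b s) (T i (b s))) • b s = (4 / 3 : ℝ) • b s := by
        rw [h2, real_inner_smul_right, real_inner_self_eq_norm_sq, hbs, smul_smul]
        rw [show 2 * sg (ω i) / 3 * sg (ω i) = 2 / 3 * (sg (ω i) * sg (ω i)) by ring,
          show sg (ω i) / 3 * (sg (ω i) * 1 ^ 2) = 1 / 3 * (sg (ω i) * sg (ω i)) by ring, h3]
        module
      rw [h4] at h1
      exact h1
    have hn0 : (n : ℝ) ≠ 0 := by
      have : n ≠ 0 := by omega
      exact_mod_cast this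
    have hav : (4 / 3 : ℝ) • b s ∈ average Ψ n ω := by
      refine Set.mem_smul_set.2 ⟨∑ i ∈ Finset.range n, (4 / 3 : ℝ) • b s, ?_, ?_⟩
      · exact Set.finset_sum_mem_finset_sum _ _ _ hmem
      · rw [Finset.sum_const, Finset.card_range, ← Nat.cast_smul_eq_nsmul ℝ, smul_smul,
          inv_mul_cancel₀ hn0, one_smul]
    have hbdd : Bornology.IsBounded (average Ψ n ω) := by
      unfold average
      refine Bornology.IsBounded.smul₀ ?_ _
      have : ∀ t : Finset ℕ, Bornology.IsBounded (∑ i ∈ t, (Ψ i ω).carrier) := by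
        intro t
        induction t using Finset.induction_on with
        | empty =>
          rw [Finset.sum_empty]
          exact Bornology.isBounded_singleton (x := (0 : X))
        | insert a t ha ih =>
          rw [Finset.sum_insert ha]
          exact (Ψ a ω).bounded.add ih
      exact this _
    have hfin := Metric.hausdorffEDist_ne_top_of_nonempty_of_bounded (s := average Ψ n ω)
      (t := (UB X).carrier) ⟨_, hav⟩ (UB X).nonempty hbdd (UB X).bounded
    refine le_trans ?_ (Metric.infDist_le_hausdorffDist_of_mem hav hfin)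
    rw [Metric.le_infDist (UB X).nonempty]
    intro y hy
    have hy1 : ‖y‖ ≤ 1 := mem_closedBall_zero_iff.1 hy
    rw [dist_eq_norm]
    have h1 := norm_sub_norm_le ((4 / 3 : ℝ) • b s) y
    rw [norm_smul, hbs] at h1
    norm_num at h1
    linarith
  refine ⟨ℕ → Bool, inferInstance, Measure.infinitePi fun _ : ℕ => coin, inferInstance, Ψ, UB X,
    ⟨2, ?_⟩, ?_, hexp, hdist, ?_⟩
  · intro n ω a ha
    rw [mem_closedBall_zero_iff]
    exact KS_norm_le (T n) (abs_sg _) ha
  · exact iIndepFun_infinitePi (P := fun _ : ℕ => coin)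
      (X := fun i (c : Bool) => R (KB (T i) (sg c) (abs_sg c)))
      fun i => measurable_from_top
  · intro ω hlim
    have h1 := hlim.eventually (gt_mem_nhds (show (0 : ℝ) < 1 / 3 by norm_num))
    obtain ⟨n, hn, hn1⟩ := (h1.and (eventually_ge_atTop 1)).exists
    exact absurd hn (not_lt.2 (hdist ω n hn1))

theorem exists_orthonormal (hX : ¬ FiniteDimensional ℝ X) :
    ∃ b : Finset ℕ → X, Orthonormal ℝ b := by
  obtain ⟨w, b, hb⟩ := exists_hilbertBasis ℝ X
  have hw : Infinite w := by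
    by_contra hcon
    rw [not_infinite_iff_finite] at hcon
    have := Fintype.ofFinite w
    exact hX (Module.Finite.of_basis b.toOrthonormalBasis.toBasis)
  have e : Finset ℕ ↪ w := (Denumerable.eqv (Finset ℕ)).toEmbedding.trans (Infinite.natEmbedding w)
  exact ⟨fun s => b (e s), b.orthonormal.comp _ e.injective⟩

end Hilbert

/-- The strong law with a common expectation fails in B-convex spaces: it fails in every
infinite-dimensional real Hilbert space, in particular in `ℓ²`. -/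
theorem result :
    (∃ (X : Type) (_ : NormedAddCommGroup X) (_ : NormedSpace ℝ X), CompleteSpace X ∧
      BConvex X ∧ Fails X) ∧
    ∀ (X : Type) [NormedAddCommGroup X] [InnerProductSpace ℝ X] [CompleteSpace X],
      ¬ FiniteDimensional ℝ X → BConvex X ∧ Fails X := by
  refine ⟨⟨lp (fun _ : Finset ℕ => ℝ) 2, inferInstance, inferInstance, inferInstance,
    bconvex_hilbert, ?_⟩, ?_⟩
  · have b : HilbertBasis (Finset ℕ) ℝ (lp (fun _ : Finset ℕ => ℝ) 2) :=
      ⟨LinearIsometryEquiv.refl ℝ _⟩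
    exact fails_of_orthonormal b b.orthonormal
  · intro X _ _ _ hX
    obtain ⟨b, hb⟩ := exists_orthonormal hX
    exact ⟨bconvex_hilbert, fails_of_orthonormal b hb⟩

end Pool.Agent.Results.MP_aabed8_pr.StrongLawFails
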